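import Mathlib

open Set Topology Filter Pointwise

namespace Pool.Agent.Results.MP_6b7ad2_lc.TurbulentGdelta

variable {G X : Type*} [Group G] [TopologicalSpace G] [TopologicalSpace X] [MulAction G X]

/-- The `(U,V)`-local graph. -/
def LocalRel (U : Set X) (V : Set G) (x y : X) : Prop := x ∈ U ∧ y ∈ U ∧ ∃ g ∈ V, g • x = y

/-- The local orbit `O(x,U,V)`: all points reached from `x` by finitely many local moves. -/
def LocalOrbit (U : Set X) (V : Set G) (x : X) : Set X :=
  {y | Relation.ReflTransGen (LocalRel U V) x y}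

/-- `x` is turbulent: for every open `U ∋ x` and every symmetric open neighbourhood `V` of `1`,
the closure of the local orbit has nonempty interior. -/
def IsTurbulent (G : Type*) {X : Type*} [Group G] [TopologicalSpace G] [TopologicalSpace X]
    [MulAction G X] (x : X) : Prop :=
  ∀ U : Set X, IsOpen U → x ∈ U → ∀ V : Set G, IsOpen V → (1 : G) ∈ V → V⁻¹ = V →
    (interior (closure (LocalOrbit U V x))).Nonempty

omit [TopologicalSpace G] [TopologicalSpace X] in
lemma rel_symm {U : Set X} {V : Set G} (hV : V⁻¹ = V) {x y : X} (h : LocalRel U V x y) :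
    LocalRel U V y x := by
  obtain ⟨hx, hy, g, hg, rfl⟩ := h
  refine ⟨hy, hx, g⁻¹, ?_, by simp⟩
  rw [← hV]
  simpa using hg

omit [TopologicalSpace G] [TopologicalSpace X] in
lemma orbit_symm {U : Set X} {V : Set G} (hV : V⁻¹ = V) {x y : X}
    (h : y ∈ LocalOrbit U V x) : x ∈ LocalOrbit U V y := by
  have h' : Relation.ReflTransGen (LocalRel U V) x y := h
  show Relation.ReflTransGen (LocalRel U V) y x
  induction h' with
  | refl => exact Relation.ReflTransGen.refl
  | tail _ h2 ih => exact Relation.ReflTransGen.head (rel_symm hV h2) (ih ‹_›)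

omit [TopologicalSpace G] [TopologicalSpace X] in
lemma orbit_subset {U : Set X} {V : Set G} {x : X} (hx : x ∈ U) : LocalOrbit U V x ⊆ U := by
  intro y hy
  have hy' : Relation.ReflTransGen (LocalRel U V) x y := hy
  cases hy' with
  | refl => exact hx
  | tail _ h2 => exact h2.2.1

omit [TopologicalSpace G] [TopologicalSpace X] in
lemma orbit_move {U : Set X} {V : Set G} {x y : X} (hx : x ∈ U) (hy : y ∈ LocalOrbit U V x) {g : G}
    (hg : g ∈ V) (hgy : g • y ∈ U) : g • y ∈ LocalOrbit U V x :=
  Relation.ReflTransGen.tail hy ⟨orbit_subset hx hy, hgy, g, hg, rfl⟩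

omit [TopologicalSpace G] [TopologicalSpace X] in
lemma orbit_trans {U : Set X} {V : Set G} {x y z : X} (hy : y ∈ LocalOrbit U V x)
    (hz : z ∈ LocalOrbit U V y) : z ∈ LocalOrbit U V x :=
  Relation.ReflTransGen.trans hy hz

omit [TopologicalSpace G] [TopologicalSpace X] in
/-- a set closed under local moves contains the local orbits of its points -/
lemma orbit_sub_of_closed {U : Set X} {V : Set G} {A : Set X}
    (hA : ∀ y ∈ A, y ∈ U → ∀ g ∈ V, g • y ∈ U → g • y ∈ A) {x : X} (hx : x ∈ A) :
    LocalOrbit U V x ⊆ A := by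
  intro y hy
  have hy' : Relation.ReflTransGen (LocalRel U V) x y := hy
  induction hy' with
  | refl => exact hx
  | tail _ h2 ih =>
    obtain ⟨h3, h4, g, hg, rfl⟩ := h2
    exact hA _ (ih ‹_›) h3 g hg h4

variable [ContinuousConstSMul G X]

omit [TopologicalSpace G] in
lemma closure_move {U : Set X} {V : Set G} (hU : IsOpen U) {x : X} (hx : x ∈ U) :
    ∀ z ∈ closure (LocalOrbit U V x), z ∈ U → ∀ g ∈ V, g • z ∈ U →
      g • z ∈ closure (LocalOrbit U V x) := by
  intro z hz _ g hg hgz
  rw [mem_closure_iff_nhds] at hz ⊢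
  intro N hN
  have hcont : ContinuousAt (fun w : X => g • w) z := (continuous_const_smul g).continuousAt
  have h1 : (fun w : X => g • w) ⁻¹' (N ∩ U) ∈ 𝓝 z :=
    hcont (inter_mem hN (hU.mem_nhds hgz))
  obtain ⟨w, hw1, hw2⟩ := hz _ h1
  exact ⟨g • w, hw1.1, orbit_move hx hw2 hg hw1.2⟩

omit [TopologicalSpace G] in
lemma interior_move {U : Set X} {V : Set G} (hU : IsOpen U) {x : X} (hx : x ∈ U) :
    ∀ z ∈ interior (closure (LocalOrbit U V x)), z ∈ U → ∀ g ∈ V, g • z ∈ U →
      g • z ∈ interior (closure (LocalOrbit U V x)) := by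
  intro z hz hzU g hg hgz
  rw [mem_interior]
  refine ⟨{w | g⁻¹ • w ∈ interior (closure (LocalOrbit U V x)) ∧ g⁻¹ • w ∈ U ∧ w ∈ U}, ?_, ?_, ?_⟩
  · rintro w ⟨h1, h2, h3⟩
    have h4 := closure_move hU hx (g⁻¹ • w) (interior_subset h1) h2 g hg (by simpa using h3)
    simpa using h4
  · have hc : Continuous (fun w : X => g⁻¹ • w) := continuous_const_smul _
    exact (isOpen_interior.preimage hc).inter ((hU.preimage hc).inter hU)
  · exact ⟨by simpa using hz, by simpa using hzU, hgz⟩

omit [TopologicalSpace G] in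
lemma open_hit {U : Set X} {V : Set G} (hU : IsOpen U) {B : Set X} (hB : IsOpen B) :
    IsOpen {x | x ∈ U ∧ (LocalOrbit U V x ∩ B).Nonempty} := by
  rw [isOpen_iff_mem_nhds]
  rintro x ⟨hxU, y, hy, hyB⟩
  have hy' : Relation.ReflTransGen (LocalRel U V) x y := hy
  clear hy
  induction hy' using Relation.ReflTransGen.head_induction_on with
  | refl =>
    filter_upwards [hU.mem_nhds hxU, hB.mem_nhds hyB] with z hz1 hz2
    exact ⟨hz1, z, Relation.ReflTransGen.refl, hz2⟩
  | head h1 _ ih =>
    obtain ⟨h2, h3, g, hg, rfl⟩ := h1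
    have ih' := ih h3
    rename_i a _
    have hcont : ContinuousAt (fun w : X => g • w) a := (continuous_const_smul g).continuousAt
    filter_upwards [hcont ih', hU.mem_nhds hxU] with z hz1 hz2
    obtain ⟨hz3, w, hw1, hw2⟩ := hz1
    exact ⟨hz2, w, Relation.ReflTransGen.head ⟨hz2, hz3, g, hg, rfl⟩ hw1, hw2⟩

omit [TopologicalSpace G] in
/-- a point whose local orbit is somewhere dense lies in the interior of the closure -/
lemma mem_W {U : Set X} {V : Set G} (hU : IsOpen U) (hV : V⁻¹ = V) {x : X} (hx : x ∈ U)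
    (h : (interior (closure (LocalOrbit U V x))).Nonempty) :
    x ∈ interior (closure (LocalOrbit U V x)) := by
  obtain ⟨w, hw⟩ := h
  obtain ⟨z, hz1, hz2⟩ := mem_closure_iff.mp (interior_subset hw) _ isOpen_interior hw
  exact orbit_sub_of_closed (interior_move hU hx) hz1 (orbit_symm hV hz2)

omit [TopologicalSpace G] in
lemma W_eq {U : Set X} {V : Set G} (hU : IsOpen U) (hV : V⁻¹ = V) {x y : X} (hx : x ∈ U)
    (hy : y ∈ U)
    (h : (interior (closure (LocalOrbit U V x)) ∩ interior (closure (LocalOrbit U V y))).Nonempty) :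
    closure (LocalOrbit U V x) ⊆ closure (LocalOrbit U V y) := by
  obtain ⟨w, hw1, hw2⟩ := h
  obtain ⟨z, hz1, hz2⟩ := mem_closure_iff.mp (interior_subset hw1) _
    (isOpen_interior.inter isOpen_interior) ⟨hw1, hw2⟩
  have h1 : LocalOrbit U V z ⊆ closure (LocalOrbit U V y) :=
    orbit_sub_of_closed (closure_move hU hy) (interior_subset hz1.2)
  have h2 : LocalOrbit U V x ⊆ LocalOrbit U V z := fun t ht => orbit_trans (orbit_symm hV hz2) ht
  exact closure_minimal (h2.trans h1) isClosed_closure

omit [TopologicalSpace G] in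
lemma gdelta_UV [SecondCountableTopology X] {U : Set X} {V : Set G} (hU : IsOpen U)
    (hV : V⁻¹ = V) : IsGδ {x | x ∈ U ∧ (interior (closure (LocalOrbit U V x))).Nonempty} := by
  -- the family of the sets `W_y`
  set T : Set X := {x | x ∈ U ∧ (interior (closure (LocalOrbit U V x))).Nonempty} with hT
  have hrep : T = ⋂ B ∈ TopologicalSpace.countableBasis X,
      ⋃ y ∈ T, (interior (closure (LocalOrbit U V y)) ∩ U ∩
        {x | B ∩ interior (closure (LocalOrbit U V y)) = ∅ ∨
          (x ∈ U ∧ (LocalOrbit U V x ∩ (B ∩ interior (closure (LocalOrbit U V y)))).Nonempty)}) := by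
    apply Subset.antisymm
    · intro x hx
      simp only [mem_iInter, mem_iUnion]
      intro B hB
      refine ⟨x, hx, ⟨mem_W hU hV hx.1 hx.2, hx.1⟩, ?_⟩
      rcases eq_empty_or_nonempty (B ∩ interior (closure (LocalOrbit U V x))) with h | ⟨w, hw⟩
      · exact Or.inl h
      · right
        refine ⟨hx.1, ?_⟩
        have hopen : IsOpen (B ∩ interior (closure (LocalOrbit U V x))) :=
          (TopologicalSpace.isOpen_of_mem_countableBasis hB).inter isOpen_interior
        obtain ⟨z, hz1, hz2⟩ := mem_closure_iff.mp (interior_subset hw.2) _ hopen hw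
        exact ⟨z, hz2, hz1⟩
    · intro x hx
      simp only [mem_iInter, mem_iUnion] at hx
      -- choose one `y`
      obtain ⟨B₀, hB₀⟩ : ∃ B₀, B₀ ∈ TopologicalSpace.countableBasis X := by
        obtain ⟨B, hB, _⟩ := (TopologicalSpace.isBasis_countableBasis X).exists_subset_of_mem_open
          (mem_univ x) isOpen_univ
        exact ⟨B, hB⟩
      obtain ⟨y, hy, ⟨hxy, hxU⟩, _⟩ := hx B₀ hB₀
      refine ⟨hxU, x, ?_⟩
      -- `W_y ⊆ closure O(x)`
      have hsub : interior (closure (LocalOrbit U V y)) ⊆ closure (LocalOrbit U V x) := by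
        intro w hw
        rw [mem_closure_iff]
        intro O hO hwO
        obtain ⟨B, hB, hwB, hBO⟩ :=
          (TopologicalSpace.isBasis_countableBasis X).exists_subset_of_mem_open
            (show w ∈ O ∩ interior (closure (LocalOrbit U V y)) from ⟨hwO, hw⟩)
            (hO.inter isOpen_interior)
        obtain ⟨y', hy', ⟨hxy', _⟩, h3⟩ := hx B hB
        have e1 : interior (closure (LocalOrbit U V y)) = interior (closure (LocalOrbit U V y')) := by
          apply Subset.antisymm
          · exact interior_mono (W_eq hU hV hy.1 hy'.1 ⟨x, hxy, hxy'⟩)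
          · exact interior_mono (W_eq hU hV hy'.1 hy.1 ⟨x, hxy', hxy⟩)
        rcases h3 with h3 | ⟨_, z, hz1, hz2⟩
        · exfalso
          rw [← e1] at h3
          have : w ∈ B ∩ interior (closure (LocalOrbit U V y)) := ⟨hwB, hw⟩
          rw [h3] at this
          exact this
        · exact ⟨z, (hBO hz2.1).1, hz1⟩
      exact mem_interior.mpr ⟨_, hsub, isOpen_interior, hxy⟩
  rw [hrep]
  apply IsGδ.biInter (TopologicalSpace.countable_countableBasis X)
  intro B hB'
  have hB := hB'
  apply IsOpen.isGδ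
  apply isOpen_biUnion
  intro y _
  refine (isOpen_interior.inter hU).inter ?_
  by_cases h : B ∩ interior (closure (LocalOrbit U V y)) = ∅
  · have : {x | B ∩ interior (closure (LocalOrbit U V y)) = ∅ ∨
          (x ∈ U ∧ (LocalOrbit U V x ∩ (B ∩ interior (closure (LocalOrbit U V y)))).Nonempty)} =
        univ := by
      ext x; simp [h]
    rw [this]
    exact isOpen_univ
  · have : {x | B ∩ interior (closure (LocalOrbit U V y)) = ∅ ∨
          (x ∈ U ∧ (LocalOrbit U V x ∩ (B ∩ interior (closure (LocalOrbit U V y)))).Nonempty)} =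
        {x | x ∈ U ∧ (LocalOrbit U V x ∩ (B ∩ interior (closure (LocalOrbit U V y)))).Nonempty} := by
      ext x; simp only [h, false_or]
    rw [this]
    exact open_hit hU ((TopologicalSpace.isOpen_of_mem_countableBasis hB).inter isOpen_interior)

omit [TopologicalSpace G] [TopologicalSpace X] [ContinuousConstSMul G X] in
lemma orbit_mono {U U' : Set X} {V V' : Set G} (hU : U' ⊆ U) (hV : V' ⊆ V) (x : X) :
    LocalOrbit U' V' x ⊆ LocalOrbit U V x := by
  intro y hy
  have hy' : Relation.ReflTransGen (LocalRel U' V') x y := hy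
  show Relation.ReflTransGen (LocalRel U V) x y
  induction hy' with
  | refl => exact Relation.ReflTransGen.refl
  | tail _ h2 ih =>
    obtain ⟨h3, h4, g, hg, h5⟩ := h2
    exact Relation.ReflTransGen.tail (ih ‹_›) ⟨hU h3, hU h4, g, hV hg, h5⟩

/-- For every Polish group `G` and every Polish `G`-space `X` the set of turbulent points is a
`G_δ` subset of `X`. -/
theorem result (G X : Type*) [Group G] [TopologicalSpace G] [IsTopologicalGroup G] [PolishSpace G]
    [TopologicalSpace X] [PolishSpace X] [MulAction G X] [ContinuousSMul G X] :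
    IsGδ {x : X | IsTurbulent G x} := by
  have hrep : {x : X | IsTurbulent G x} = ⋂ U ∈ TopologicalSpace.countableBasis X,
      ⋂ B ∈ {B ∈ TopologicalSpace.countableBasis G | (1 : G) ∈ B},
        (Uᶜ ∪ {x | x ∈ U ∧ (interior (closure (LocalOrbit U (B ∩ B⁻¹) x))).Nonempty}) := by
    apply Subset.antisymm
    · intro x hx
      simp only [mem_iInter]
      rintro U hU B ⟨hB, h1⟩
      by_cases hxU : x ∈ U
      · right
        refine ⟨hxU, hx U (TopologicalSpace.isOpen_of_mem_countableBasis hU) hxU _ ?_ ?_ ?_⟩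
        · have hBo := TopologicalSpace.isOpen_of_mem_countableBasis hB
          exact hBo.inter hBo.inv
        · exact ⟨h1, by simpa using h1⟩
        · rw [Set.inter_inv, inv_inv, inter_comm]
      · exact Or.inl hxU
    · intro x hx U hU hxU V hV h1 _
      simp only [mem_iInter] at hx
      obtain ⟨U', hU', hxU', hUU⟩ :=
        (TopologicalSpace.isBasis_countableBasis X).exists_subset_of_mem_open hxU hU
      obtain ⟨B, hB, h1B, hBV⟩ :=
        (TopologicalSpace.isBasis_countableBasis G).exists_subset_of_mem_open h1 hV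
      rcases hx U' hU' B ⟨hB, h1B⟩ with h | h
      · exact absurd hxU' h
      · exact h.2.mono (interior_mono (closure_mono
          (orbit_mono hUU (inter_subset_left.trans hBV) x)))
  rw [hrep]
  apply IsGδ.biInter (TopologicalSpace.countable_countableBasis X)
  intro U hU
  have hUo := TopologicalSpace.isOpen_of_mem_countableBasis hU
  apply IsGδ.biInter ((TopologicalSpace.countable_countableBasis G).mono (fun B hB => hB.1))
  intro B _
  apply IsGδ.union
  · let _ := TopologicalSpace.upgradeIsCompletelyMetrizable X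
    exact hUo.isClosed_compl.isGδ
  · exact gdelta_UV hUo (by rw [Set.inter_inv, inv_inv, inter_comm])

end Pool.Agent.Results.MP_6b7ad2_lc.TurbulentGdelta
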